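import Pool.Agent.Q281.QC.Stmt

set_option autoImplicit false

/-!
# MP_594717_nt: the exponent in a q-congruence for truncated basic hypergeometric sums (Q1)

For an odd prime `p` and positive integers `r < m` with `p ≡ ±1 (mod m)`, the congruence `(*)` holds
for exactly one integer `f`, and `f = r (m - r) (1 - p^2) / (2 m)`.

Method. For `r = -m N` exactly (`0 ≤ N < p`) the two sums terminate and satisfy the exact reflection
formula `S = (-1)^N q^(-m N (N+1)/2) T`; the same for `r = -m N + m p` by the symmetry `r ↔ m - r`.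
In general `r = -m N + p t`, and modulo `(q^p - 1)^2` the coefficients of `S` and of
`q^(p t (N - (p-1)/2)) T` are affine in `t`, and they agree at `t = 0` and `t = m`. This gives
`2 f = -m N (N+1) - (r + m N) (p - 1 - 2 N)`, `N = ⟨-r/m⟩_p`, without the hypothesis `p ≡ ±1`.
-/

namespace Pool.Agent.Results.MP_594717_nt.ExponentFormula

open Polynomial Pool.Agent.Q281.QCS

/-- Q1: `(*)` holds for exactly one integer `f`, and `2 m f = r (m - r) (1 - p^2)`. -/
theorem result : ∀ p m r : ℕ, p.Prime → p ≠ 2 → 1 ≤ r → r < m →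
    (m ∣ p - 1 ∨ m ∣ p + 1) →
    ∃ f : ℤ, 2 * m * f = r * (m - r) * (1 - p ^ 2) ∧ ∀ g : ℤ, Holds p m r g ↔ g = f := by
  intro p m r hp hp2 hr hrm hcase
  have hm : 1 ≤ m := by omega
  have hodd : ∃ h : ℕ, p = 2 * h + 1 := by
    rcases hp.eq_two_or_odd with h' | h'
    · exact absurd h' hp2
    · exact ⟨p / 2, by omega⟩
  obtain ⟨e, he⟩ := hodd
  have hpm : ¬ p ∣ m := by
    intro h
    rcases hcase with h1 | h1
    · have h2 := h.trans h1
      have h3 := Nat.le_of_dvd (by have := hp.two_le; omega) h2
      omega
    · have h2 := h.trans h1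
      have h3 : p ∣ 1 := (Nat.dvd_add_right (dvd_refl p)).1 h2
      exact hp.one_lt.ne' (Nat.dvd_one.1 h3)
  -- the residue
  have key : ∃ N : ℕ, N < p ∧ (p : ℤ) ∣ (r : ℤ) + m * N ∧
      (m : ℤ) * (-(m * N * (N + 1)) - (r + m * N) * (p - 1 - 2 * N)) =
        r * (m - r) * (1 - p ^ 2) := by
    rcases hcase with ⟨s, hs⟩ | ⟨s, hs⟩
    · have hps : (p : ℤ) = 1 + m * s := by
        have := hp.one_lt
        have h1 : p = 1 + m * s := by omega
        exact_mod_cast h1
      have hs0 : 0 < s := by
        rcases Nat.eq_zero_or_pos s with h | h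
        · rw [h, mul_zero] at hs
          have := hp.two_le
          omega
        · exact h
      refine ⟨r * s, ?_, ?_, ?_⟩
      · have h1 : p = 1 + m * s := by have := hp.one_lt; omega
        have h2 : r * s < m * s := Nat.mul_lt_mul_of_pos_right hrm hs0
        omega
      · refine ⟨r, ?_⟩
        rw [hps]
        push_cast
        ring
      · rw [hps]
        push_cast
        ring
    · have hps : (p : ℤ) = m * s - 1 := by
        have h1 : (p : ℤ) + 1 = m * s := by exact_mod_cast hs
        linarith
      obtain ⟨u, hu⟩ : ∃ u, m = r + u := ⟨m - r, by omega⟩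
      have hs0 : 0 < s := by
        rcases Nat.eq_zero_or_pos s with h | h
        · rw [h, mul_zero] at hs
          omega
        · exact h
      have hus : 1 ≤ u * s := Nat.mul_pos (by omega) hs0
      have hN : ((u * s - 1 : ℕ) : ℤ) = u * s - 1 := by
        rw [Nat.cast_sub hus]
        push_cast
        ring
      have hmz : (m : ℤ) = r + u := by exact_mod_cast hu
      refine ⟨u * s - 1, ?_, ?_, ?_⟩
      · have h2 : u * s < m * s := Nat.mul_lt_mul_of_pos_right (by omega) hs0
        omega
      · refine ⟨u, ?_⟩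
        rw [hps, hN, hmz]
        ring
      · rw [hN, hps, hmz]
        ring
  obtain ⟨N, hN, hd, hid⟩ := key
  have hres := res_unique hp hpm hN hd
  obtain ⟨u, hu⟩ := Int.even_mul_succ_self (N : ℤ)
  refine ⟨-(m * u) - (r + m * N) * (e - N), ?_, fun g => ?_⟩
  · rw [← hid, he]
    push_cast
    linear_combination ((m : ℤ) * m) * hu
  · rw [Holds, hres, congr_iff hp hp2 hm hpm hN hd g, he]
    push_cast
    constructor
    · intro h
      apply mul_left_cancel₀ (two_ne_zero (α := ℤ))
      linear_combination h - (m : ℤ) * hu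
    · intro h
      rw [h]
      linear_combination (m : ℤ) * hu

end Pool.Agent.Results.MP_594717_nt.ExponentFormula
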